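import Mathlib

/-!
# MP_0e3340_nt: infinitely many triples with three consecutive multiplicatively dependent shifts

For every `k ≥ 3` the triple `(2, 2^k - 2, 2^k (2^k - 2))` is admissible:

* `2^k · (2^k - 2) = 2^k (2^k - 2)`, so the triple itself is multiplicatively dependent;
* the shift by one is `(3, 2^k - 1, (2^k - 1)²)`;
* the shift by two is `(4, 2^k, ·)`, and `4^k = (2^k)^2`.

So there are infinitely many admissible triples.
-/

namespace Pool.Agent.Results.MP_0e3340_nt.InfiniteFamily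

/-- The triple `(x, y, z)` of (nonzero) integers is multiplicatively dependent: some product
`x^k y^l z^m` with integers `k, l, m`, not all zero, is `1`. -/
def MultDep (x y z : ℤ) : Prop :=
  ∃ k l m : ℤ, ¬ (k = 0 ∧ l = 0 ∧ m = 0) ∧ (x : ℚ) ^ k * (y : ℚ) ^ l * (z : ℚ) ^ m = 1

/-- Admissible triples, as in the problem file: pairwise distinct integers larger than `1`, not
containing both `2` and `8`, such that the three shifts by `0`, `1` and `2` are multiplicatively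
dependent. -/
def Admissible (a b c : ℤ) : Prop :=
  (1 < a ∧ 1 < b ∧ 1 < c) ∧ (a ≠ b ∧ a ≠ c ∧ b ≠ c) ∧
  ¬ (({2, 8} : Set ℤ) ⊆ {a, b, c}) ∧
  ∀ i : ℤ, 0 ≤ i → i ≤ 2 → MultDep (a + i) (b + i) (c + i)

lemma family (k : ℕ) (hk : 3 ≤ k) :
    Admissible 2 (2 ^ k - 2) (2 ^ k * (2 ^ k - 2)) ∧
      (2 : ℤ) < 2 ^ k - 2 ∧ (2 ^ k - 2 : ℤ) < 2 ^ k * (2 ^ k - 2) := by
  have h8 : (8 : ℤ) ≤ 2 ^ k := by
    calc (8 : ℤ) = 2 ^ 3 := by norm_num
      _ ≤ 2 ^ k := pow_le_pow_right₀ (by norm_num) hk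
  have h16 : (2 : ℤ) ^ k = 8 ∨ (16 : ℤ) ≤ 2 ^ k := by
    rcases Nat.eq_or_lt_of_le hk with h | h
    · left; rw [← h]; norm_num
    · right
      calc (16 : ℤ) = 2 ^ 4 := by norm_num
        _ ≤ 2 ^ k := pow_le_pow_right₀ (by norm_num) h
  have hlt : (2 ^ k - 2 : ℤ) < 2 ^ k * (2 ^ k - 2) := by nlinarith
  refine ⟨⟨⟨by norm_num, by linarith, by nlinarith⟩, ⟨by linarith, by nlinarith, by linarith⟩,
    ?_, ?_⟩, by linarith, hlt⟩
  · intro h
    have h2 : (8 : ℤ) ∈ ({2, (2 ^ k - 2 : ℤ), (2 ^ k * (2 ^ k - 2) : ℤ)} : Set ℤ) := h (by simp)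
    simp only [Set.mem_insert_iff, Set.mem_singleton_iff] at h2
    rcases h2 with h2 | h2 | h2
    · norm_num at h2
    · rcases h16 with h | h <;> linarith
    · nlinarith
  · intro i hi0 hi2
    have hq : (2 : ℚ) ^ k ≠ 0 := by positivity
    have h8q : (8 : ℚ) ≤ 2 ^ k := by exact_mod_cast h8
    have hi : i = 0 ∨ i = 1 ∨ i = 2 := by omega
    rcases hi with rfl | rfl | rfl
    · refine ⟨k, 1, -1, by simp, ?_⟩
      have h1 : ((2 : ℚ) ^ k - 2) ≠ 0 := by
        intro h; linarith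
      push_cast
      simp only [add_zero, zpow_natCast, zpow_one, zpow_neg, mul_inv]
      field_simp
    · refine ⟨0, 2, -1, by simp, ?_⟩
      have h1 : ((2 : ℚ) ^ k - 1) ≠ 0 := by
        intro h; linarith
      have e1 : ((2 ^ k - 2 + 1 : ℤ) : ℚ) = 2 ^ k - 1 := by push_cast; ring
      have e2 : ((2 ^ k * (2 ^ k - 2) + 1 : ℤ) : ℚ) = (2 ^ k - 1) ^ 2 := by push_cast; ring
      rw [e1, e2, zpow_zero, one_mul, zpow_neg, zpow_one]
      rw [show ((2 : ℚ) ^ k - 1) ^ (2 : ℤ) = ((2 : ℚ) ^ k - 1) ^ 2 from by norm_cast]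
      exact mul_inv_cancel₀ (pow_ne_zero 2 h1)
    · refine ⟨k, -2, 0, by simp, ?_⟩
      have e1 : ((2 ^ k - 2 + 2 : ℤ) : ℚ) = 2 ^ k := by push_cast; ring
      have e0 : ((2 + 2 : ℤ) : ℚ) = 2 ^ 2 := by norm_num
      rw [e1, e0, zpow_zero, mul_one, zpow_neg, zpow_natCast]
      rw [show ((2 : ℚ) ^ k) ^ (2 : ℤ) = ((2 : ℚ) ^ k) ^ 2 from by norm_cast]
      rw [← pow_mul, ← pow_mul, mul_comm 2 k]
      exact mul_inv_cancel₀ (by positivity)

end Pool.Agent.Results.MP_0e3340_nt.InfiniteFamily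

open Pool.Agent.Results.MP_0e3340_nt.InfiniteFamily in
/-- There are infinitely many admissible triples `(a, b, c)` with `a < b < c`. -/
theorem Pool.Agent.Results.MP_0e3340_nt.InfiniteFamily.result :
    Set.Infinite {t : ℤ × ℤ × ℤ | Admissible t.1 t.2.1 t.2.2 ∧ t.1 < t.2.1 ∧ t.2.1 < t.2.2} := by
  refine Set.infinite_of_injective_forall_mem
    (f := fun n : ℕ => ((2 : ℤ), (2 : ℤ) ^ (n + 3) - 2, (2 : ℤ) ^ (n + 3) * (2 ^ (n + 3) - 2)))
    ?_ ?_
  · intro m n h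
    simp only [Prod.mk.injEq, true_and] at h
    have h1 : (2 : ℤ) ^ (m + 3) = 2 ^ (n + 3) := by linarith [h.1]
    have h2 := Int.pow_right_injective (a := 2) (by norm_num) h1
    omega
  · intro n
    have := family (n + 3) (by omega)
    exact ⟨this.1, this.2.1, this.2.2⟩
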